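import Pool.Agent.EFA.Stmts

/-!
# Squad EFA, row UPP: `A` is computable from `F A`
-/

set_option autoImplicit false

open Nat.Partrec (Code)
open Pool.Agent.Helper25TD

namespace Pool.Agent.EFA.H5

open Pool.Agent.EFA

theorem re_and {p q : ℕ → Prop} (hp : REPred p) (hq : REPred q) :
    REPred fun n => p n ∧ q n := by
  have h : Partrec fun a : ℕ => (Part.assert (p a) fun _ => Part.some ()).bind
      fun _ : Unit => Part.assert (q a) fun _ => Part.some () :=
    Partrec.bind hp (Partrec.comp hq Computable.fst)
  refine Partrec.of_eq h fun a => ?_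
  ext u
  simp only [Part.mem_bind_iff, Part.mem_assert_iff]
  constructor
  · rintro ⟨_, ⟨h1, _⟩, ⟨h2, h3⟩⟩
    exact ⟨⟨h1, h2⟩, h3⟩
  · rintro ⟨⟨h1, h2⟩, h3⟩
    exact ⟨(), ⟨h1, Part.mem_some _⟩, ⟨h2, h3⟩⟩

theorem re_comp {p : ℕ → Prop} (hp : REPred p) {f : ℕ → ℕ} (hf : Computable f) :
    REPred fun n => p (f n) := Partrec.comp hp hf

theorem bool_toNat_prim : Primrec fun b : Bool => b.toNat := by
  refine (Primrec.cond Primrec.id (Primrec.const 1) (Primrec.const 0)).of_eq fun b => ?_
  cases b <;> rfl

theorem chi_partrec {x : ℕ → Bool} (h : Computable x) : Partrec (chi x) := by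
  have h1 : Computable fun n => (x n).toNat := bool_toNat_prim.to_comp.comp h
  exact h1

theorem computable_of_le {x y : ℕ → Bool} (hy : Computable y) (h : TLE x y) : Computable x := by
  have h1 : Partrec (chi x) := by
    refine RecursiveIn.partrec_of_oracle (O := {chi y}) ?_ h
    rintro g hg
    rw [Set.mem_singleton_iff] at hg
    subst hg
    exact chi_partrec hy
  have h2 : Computable fun n => (x n).toNat := h1
  have h3 : Primrec fun n : ℕ => decide (n = 1) :=
    (PrimrecPred.decide (Primrec.eq.comp Primrec.id (Primrec.const 1)))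
  refine (h3.to_comp.comp h2).of_eq fun n => ?_
  cases x n <;> rfl

/-- **UPP** -/
theorem upp (hrec : RecStmt) : UppStmt := by
  classical
  intro F E hE A hA
  by_cases hc : Computable (bo A)
  · exact (chi_partrec hc).recursiveIn
  have h0 : Computable (bo fun _ : ℕ => False) := by
    refine (Computable.const false).of_eq fun n => ?_
    simp [bo]
  obtain ⟨h0re, h0F⟩ := hrec F E _ h0
  have hne : bo (F A) ≠ bo (F fun _ => False) := by
    intro heq
    have h1 : Le (F A) (F fun _ => False) := by
      unfold Le
      rw [heq]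
      exact TLE.refl _
    exact hc (computable_of_le h0 ((E.iff A _ hA h0re).2 h1))
  obtain ⟨y, hy⟩ := Function.ne_iff.1 hne
  -- the product
  let Y : ℕ → Prop := fun z => A z.unpair.1 ∧ A z.unpair.2
  have hYre : REPred Y :=
    re_and (re_comp hA (Primrec.fst.comp Primrec.unpair).to_comp)
      (re_comp hA (Primrec.snd.comp Primrec.unpair).to_comp)
  have hAA : TR (bo A) fun n => (bo A n).toNat := TR.of_le (TLE.refl _)
  have hYA : Le Y A := by
    refine TR.to_le ?_
    have h1 := hAA.comp (TR.prim (Primrec.fst.comp Primrec.unpair))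
    have h2 := hAA.comp (TR.prim (Primrec.snd.comp Primrec.unpair))
    have h3 : TR (bo A) fun n => n.unpair.1 * n.unpair.2 :=
      TR.prim (Primrec.nat_mul.comp (Primrec.fst.comp Primrec.unpair)
        (Primrec.snd.comp Primrec.unpair))
    have h4 := h3.comp (h1.pair h2)
    refine Nat.RecursiveIn.of_eq h4 fun n => ?_
    simp only [Nat.unpair_pair]
    by_cases a1 : A n.unpair.1 <;> by_cases a2 : A n.unpair.2 <;> simp [bo, Y, a1, a2]
  obtain ⟨ψ, hψ, hψv⟩ := hE Y hYre
  let cc : ℕ → Code := fun m => Code.curry (Code.pair Code.right Code.left) m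
  have hcc : Primrec fun m => Nat.pair (Encodable.encode (cc m)) y :=
    Primrec₂.natPair.comp
      (Primrec.encode.comp (Code.primrec₂_curry.comp (Primrec.const _) Primrec.id))
      (Primrec.const y)
  have hval : ∀ m, ψ (Nat.pair (Encodable.encode (cc m)) y) =
      Part.some (bo (F fun x => Y (Nat.pair x m)) y).toNat := by
    intro m
    refine hψv (cc m) (fun x => Nat.pair x m) ?_ ?_ y
    · intro a b hab
      exact (Nat.pair_eq_pair.1 hab).1
    · intro x
      simp only [cc, Code.eval_curry, Code.eval]
      simp [Seq.seq]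
  have hg : TR (bo (F Y)) fun m => (bo (F fun x => Y (Nat.pair x m)) y).toNat := by
    have h1 := Nat.RecursiveIn.comp hψ (TR.prim (x := bo (F Y)) hcc)
    refine Nat.RecursiveIn.of_eq h1 fun m => ?_
    exact (Part.bind_some _ ψ).trans (hval m)
  have hAFY : Le A (F Y) := by
    refine TR.to_le ?_
    have h1 : Primrec fun n : ℕ => if n = (bo (F A) y).toNat then 1 else 0 :=
      Primrec.ite (Primrec.eq.comp Primrec.id (Primrec.const _)) (Primrec.const 1)
        (Primrec.const 0)
    have h2 := (TR.prim (x := bo (F Y)) h1).comp hg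
    refine Nat.RecursiveIn.of_eq h2 fun m => ?_
    by_cases hm : A m
    · have h3 : (fun x => Y (Nat.pair x m)) = A := by
        funext x
        simp [Y, hm]
      simp [h3, bo, hm]
    · have h3 : (fun x => Y (Nat.pair x m)) = fun _ => False := by
        funext x
        simp [Y, hm]
      have h4 : ¬ (bo (F fun _ => False) y).toNat = (bo (F A) y).toNat := by
        intro h5
        apply hy
        revert h5
        cases bo (F A) y <;> cases bo (F fun _ => False) y <;> simp
      simp only [h3, if_neg h4]
      simp [bo, hm]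
  exact TLE.trans hAFY ((E.iff Y A hYre hA).1 hYA)

end Pool.Agent.EFA.H5
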